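import Mathlib

/-!
# Exponentially many dimensions of rigid facets in Vietoris-Rips complexes of the hypercube
-/

set_option autoImplicit false

namespace Pool.Agent.Results.MP_dee721_co.ExponentiallyManyDims

open Finset

/-- A simplex of `VR(Q_n; r)`: a nonempty set of vertices of the cube at pairwise Hamming distance
at most `r`. -/
def IsSimplex {n : ℕ} (r : ℕ) (σ : Finset (Fin n → Bool)) : Prop :=
  σ.Nonempty ∧ ∀ x ∈ σ, ∀ y ∈ σ, hammingDist x y ≤ r

/-- A facet of `VR(Q_n; r)`: an inclusion-maximal simplex. -/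
def IsFacet {n : ℕ} (r : ℕ) (σ : Finset (Fin n → Bool)) : Prop :=
  IsSimplex r σ ∧ ∀ τ, IsSimplex r τ → σ ⊆ τ → τ = σ

/-- A simplex is rigid if `max_{y ∈ σ} d(x, y) = r` for each `x ∈ σ`. -/
def IsRigid {n : ℕ} (r : ℕ) (σ : Finset (Fin n → Bool)) : Prop :=
  ∀ x ∈ σ, (∀ y ∈ σ, hammingDist x y ≤ r) ∧ ∃ y ∈ σ, hammingDist x y = r

/-- `f(n; r)`: the number of different dimensions of rigid facets of `VR(Q_n; r)`; a simplex with
`k + 1` vertices has dimension `k`. -/
noncomputable def f (n r : ℕ) : ℕ :=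
  Set.ncard {k : ℕ | ∃ σ : Finset (Fin n → Bool), IsFacet r σ ∧ IsRigid r σ ∧ σ.card = k + 1}

/-! ### Two rigid facets in `Q_7` -/

/-- The simplex code (`true`) and the product of two tetrahedra (`false`). -/
def G (b : Bool) (x : Fin 7 → Bool) : Bool :=
  if b then
    (x 2 == xor (x 0) (x 1)) && (x 4 == xor (x 0) (x 3)) && (x 5 == xor (x 1) (x 3)) &&
      (x 6 == xor (x 2) (x 3))
  else (x 2 == xor (x 0) (x 1)) && (x 5 == xor (x 3) (x 4)) && x 6

/-- Number of disagreements, in a quickly computable form. -/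
def dd (x y : Fin 7 → Bool) : ℕ :=
  (if x 0 = y 0 then 0 else 1) + (if x 1 = y 1 then 0 else 1) + (if x 2 = y 2 then 0 else 1) +
  (if x 3 = y 3 then 0 else 1) + (if x 4 = y 4 then 0 else 1) + (if x 5 = y 5 then 0 else 1) +
  (if x 6 = y 6 then 0 else 1)

theorem hammingDist_eq_sum {n : ℕ} (x y : Fin n → Bool) :
    hammingDist x y = ∑ i, if x i = y i then 0 else 1 := by
  rw [hammingDist, Finset.card_filter]
  refine Finset.sum_congr rfl fun i _ => ?_
  by_cases h : x i = y i <;> simp [h]

theorem hammingDist_eq_dd (x y : Fin 7 → Bool) : hammingDist x y = dd x y := by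
  rw [hammingDist_eq_sum, Fin.sum_univ_seven]
  rfl

theorem forall_seven {P : (Fin 7 → Bool) → Prop}
    (h : ∀ a b c d e f g : Bool, P ![a, b, c, d, e, f, g]) : ∀ x, P x := by
  intro x
  have : x = ![x 0, x 1, x 2, x 3, x 4, x 5, x 6] := by
    funext i
    fin_cases i <;> rfl
  rw [this]
  exact h _ _ _ _ _ _ _

theorem G_dist (b : Bool) : ∀ x y : Fin 7 → Bool, G b x = true → G b y = true →
    hammingDist x y ≤ 4 := by
  simp only [hammingDist_eq_dd]
  refine forall_seven fun a1 a2 a3 a4 a5 a6 a7 => forall_seven fun b1 b2 b3 b4 b5 b6 b7 => ?_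
  revert b a1 a2 a3 a4 a5 a6 a7 b1 b2 b3 b4 b5 b6 b7
  decide +kernel

theorem G_cross : ∀ x y : Fin 7 → Bool, G true x = true → G false y = true →
    hammingDist x y ≤ 5 := by
  simp only [hammingDist_eq_dd]
  refine forall_seven fun a1 a2 a3 a4 a5 a6 a7 => forall_seven fun b1 b2 b3 b4 b5 b6 b7 => ?_
  revert a1 a2 a3 a4 a5 a6 a7 b1 b2 b3 b4 b5 b6 b7
  decide +kernel

theorem G_attained (b : Bool) (x : Fin 7 → Bool) (hx : G b x = true) :
    ∃ y, G b y = true ∧ hammingDist x y = 4 := by
  have key : ∀ b a1 a2 a3 a4 a5 a6 a7 : Bool, G b ![a1, a2, a3, a4, a5, a6, a7] = true →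
      ∃ b1 b2 b3 b4 b5 b6 b7 : Bool, G b ![b1, b2, b3, b4, b5, b6, b7] = true ∧
        dd ![a1, a2, a3, a4, a5, a6, a7] ![b1, b2, b3, b4, b5, b6, b7] = 4 := by
    decide +kernel
  revert x
  refine forall_seven fun a1 a2 a3 a4 a5 a6 a7 => ?_
  intro h
  obtain ⟨b1, b2, b3, b4, b5, b6, b7, h1, h2⟩ := key b _ _ _ _ _ _ _ h
  exact ⟨_, h1, by rw [hammingDist_eq_dd, h2]⟩

theorem G_maximal (b : Bool) (x : Fin 7 → Bool) (hx : G b x = false) :
    ∃ y, G b y = true ∧ 5 ≤ hammingDist x y := by
  have key : ∀ b a1 a2 a3 a4 a5 a6 a7 : Bool, G b ![a1, a2, a3, a4, a5, a6, a7] = false →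
      ∃ b1 b2 b3 b4 b5 b6 b7 : Bool, G b ![b1, b2, b3, b4, b5, b6, b7] = true ∧
        5 ≤ dd ![a1, a2, a3, a4, a5, a6, a7] ![b1, b2, b3, b4, b5, b6, b7] := by
    decide +kernel
  revert x
  refine forall_seven fun a1 a2 a3 a4 a5 a6 a7 => ?_
  intro h
  obtain ⟨b1, b2, b3, b4, b5, b6, b7, h1, h2⟩ := key b _ _ _ _ _ _ _ h
  exact ⟨_, h1, by rw [hammingDist_eq_dd]; exact h2⟩

theorem G_card (b : Bool) : (univ.filter fun x => G b x = true).card = if b then 8 else 16 := by
  cases b <;> decide +kernel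

/-! ### The construction -/

/-- Concatenation of `b : Bool`, `q ∈ Q_K`, `z ∈ Q_7`, `w ∈ Q_L`. -/
def mk {K L : ℕ} (b : Bool) (q : Fin K → Bool) (z : Fin 7 → Bool) (w : Fin L → Bool) :
    Fin (K + 1 + 7 + L) → Bool :=
  Fin.append (Fin.append (Fin.cons b q : Fin (K + 1) → Bool) z) w

theorem dist_append {m n : ℕ} (x x' : Fin m → Bool) (y y' : Fin n → Bool) :
    hammingDist (Fin.append x y) (Fin.append x' y') = hammingDist x x' + hammingDist y y' := by
  simp only [hammingDist_eq_sum, Fin.sum_univ_add, Fin.append_left, Fin.append_right]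

theorem dist_cons {n : ℕ} (b b' : Bool) (y y' : Fin n → Bool) :
    hammingDist (Fin.cons b y : Fin (n + 1) → Bool) (Fin.cons b' y') =
      (if b = b' then 0 else 1) + hammingDist y y' := by
  simp only [hammingDist_eq_sum, Fin.sum_univ_succ, Fin.cons_zero, Fin.cons_succ]

theorem dist_mk {K L : ℕ} (b b' : Bool) (q q' : Fin K → Bool) (z z' : Fin 7 → Bool)
    (w w' : Fin L → Bool) :
    hammingDist (mk b q z w) (mk b' q' z' w') =
      (if b = b' then 0 else 1) + hammingDist q q' + hammingDist z z' + hammingDist w w' := by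
  rw [mk, mk, dist_append, dist_append, dist_cons]

theorem exists_mk {K L : ℕ} (x : Fin (K + 1 + 7 + L) → Bool) :
    ∃ (b : Bool) (q : Fin K → Bool) (z : Fin 7 → Bool) (w : Fin L → Bool), x = mk b q z w := by
  refine ⟨x (Fin.castAdd L (Fin.castAdd 7 0)),
    fun i => x (Fin.castAdd L (Fin.castAdd 7 i.succ)),
    fun i => x (Fin.castAdd L (Fin.natAdd (K + 1) i)),
    fun i => x (Fin.natAdd (K + 1 + 7) i), ?_⟩
  funext j
  refine Fin.addCases (fun j => ?_) (fun j => ?_) j
  · rw [mk, Fin.append_left]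
    refine Fin.addCases (fun j => ?_) (fun j => ?_) j
    · rw [Fin.append_left]
      refine Fin.cases ?_ (fun j => ?_) j
      · rw [Fin.cons_zero]
      · rw [Fin.cons_succ]
    · rw [Fin.append_right]
  · rw [mk, Fin.append_right]

theorem dist_le {K : ℕ} (q q' : Fin K → Bool) : hammingDist q q' ≤ K := by
  have := hammingDist_le_card_fintype (x := q) (y := q')
  simpa using this

theorem dist_lt {K : ℕ} (q q' : Fin K → Bool) {i : Fin K} (h : q i = q' i) :
    hammingDist q q' < K := by
  have : hammingDist q q' < (univ : Finset (Fin K)).card := by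
    unfold hammingDist
    refine Finset.card_lt_card ?_
    rw [Finset.ssubset_univ_iff]
    intro h1
    have h2 : i ∈ (univ.filter fun i => q i ≠ q' i) := by rw [h1]; exact Finset.mem_univ _
    simp [h] at h2
  simpa using this

theorem dist_not {K : ℕ} (q : Fin K → Bool) : hammingDist q (fun i => !q i) = K := by
  simp [hammingDist_eq_sum]

/-- The class of `(b, q)` and of its antipode. -/
def cls {K : ℕ} (b : Bool) (q : Fin K → Bool) : Fin K → Bool := fun i => xor b (q i)

theorem cls_not {K : ℕ} (b : Bool) (q : Fin K → Bool) :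
    cls (!b) (fun i => !q i) = cls b q := by
  funext i
  simp [cls]

/-- The rigid facets. -/
def S {K : ℕ} (L : ℕ) (B : (Fin K → Bool) → Bool) : Finset (Fin (K + 1 + 7 + L) → Bool) :=
  (univ.filter fun t : Bool × (Fin K → Bool) × (Fin 7 → Bool) =>
    G (B (cls t.1 t.2.1)) t.2.2 = true).image fun t => mk t.1 t.2.1 t.2.2 (fun _ => false)

variable {K L : ℕ} {B : (Fin K → Bool) → Bool}

theorem mem_S {x : Fin (K + 1 + 7 + L) → Bool} :
    x ∈ S L B ↔ ∃ b q z, G (B (cls b q)) z = true ∧ mk b q z (fun _ => false) = x := by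
  simp [S]

theorem mk_mem_S {b : Bool} {q : Fin K → Bool} {z : Fin 7 → Bool}
    (h : G (B (cls b q)) z = true) : mk b q z (fun _ => false) ∈ S L B :=
  mem_S.2 ⟨b, q, z, h, rfl⟩

theorem S_nonempty : (S L B).Nonempty := by
  have : ∀ b, ∃ z, G b z = true := by
    intro b
    cases b
    · exact ⟨![false, false, false, false, false, false, true], rfl⟩
    · exact ⟨![false, false, false, false, false, false, false], rfl⟩
  obtain ⟨z, hz⟩ := this (B (cls false (fun _ => false)))
  exact ⟨_, mk_mem_S hz⟩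

theorem xor_key : ∀ b b' u v : Bool, ¬ b = b' → u ≠ v → xor b u = xor b' v := by decide

theorem S_dist {x y : Fin (K + 1 + 7 + L) → Bool} (hx : x ∈ S L B) (hy : y ∈ S L B) :
    hammingDist x y ≤ K + 5 := by
  obtain ⟨b, q, z, h, rfl⟩ := mem_S.1 hx
  obtain ⟨b', q', z', h', rfl⟩ := mem_S.1 hy
  rw [dist_mk, hammingDist_self, add_zero]
  have h1 : (if b = b' then 0 else 1) ≤ 1 := by split_ifs <;> omega
  have h2 := dist_le q q'
  by_cases hB : B (cls b q) = B (cls b' q')
  · rw [← hB] at h'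
    have := G_dist _ _ _ h h'
    omega
  · have h3 : hammingDist z z' ≤ 5 := by
      rcases Bool.eq_false_or_eq_true (B (cls b q)) with h4 | h4 <;>
        rcases Bool.eq_false_or_eq_true (B (cls b' q')) with h5 | h5
      · exact absurd (h4.trans h5.symm) hB
      · rw [h4] at h
        rw [h5] at h'
        exact G_cross _ _ h h'
      · rw [h4] at h
        rw [h5] at h'
        rw [hammingDist_comm]
        exact G_cross _ _ h' h
      · exact absurd (h4.trans h5.symm) hB
    by_cases hb : b = b'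
    · rw [if_pos hb]
      omega
    · have : ∃ i, q i = q' i := by
        by_contra hn
        have hn' : ∀ i, q i ≠ q' i := fun i hi => hn ⟨i, hi⟩
        apply hB
        congr 1
        funext i
        exact xor_key b b' (q i) (q' i) hb (hn' i)
      obtain ⟨i, hi⟩ := this
      have := dist_lt q q' hi
      omega

theorem S_rigid : IsRigid (K + 5) (S L B) := by
  intro x hx
  refine ⟨fun y hy => S_dist hx hy, ?_⟩
  obtain ⟨b, q, z, h, rfl⟩ := mem_S.1 hx
  obtain ⟨y, hy, hzy⟩ := G_attained _ _ h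
  refine ⟨mk (!b) (fun i => !q i) y (fun _ => false), mk_mem_S (by rw [cls_not]; exact hy), ?_⟩
  rw [dist_mk, dist_not, hammingDist_self, hzy, if_neg (by cases b <;> simp)]
  omega

theorem S_facet : IsFacet (K + 5) (S L B) := by
  refine ⟨⟨S_nonempty, fun x hx y hy => S_dist hx hy⟩, ?_⟩
  intro τ hτ hS
  refine Finset.Subset.antisymm (fun x hx => ?_) hS
  obtain ⟨b, q, z, w, rfl⟩ := exists_mk x
  have hb : b ≠ !b := by cases b <;> simp
  rcases Bool.eq_false_or_eq_true (G (B (cls b q)) z) with h | h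
  · obtain ⟨y, hy, hzy⟩ := G_attained _ _ h
    have h1 : mk (!b) (fun i => !q i) y (fun _ => false) ∈ S L B :=
      mk_mem_S (by rw [cls_not]; exact hy)
    have h2 := hτ.2 _ hx _ (hS h1)
    rw [dist_mk, dist_not, hzy, if_neg hb] at h2
    have h3 : hammingDist w (fun _ => false) = 0 := by omega
    rw [hammingDist_eq_zero] at h3
    rw [h3]
    exact mk_mem_S h
  · obtain ⟨y, hy, hzy⟩ := G_maximal _ _ h
    have h1 : mk (!b) (fun i => !q i) y (fun _ => false) ∈ S L B :=
      mk_mem_S (by rw [cls_not]; exact hy)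
    have h2 := hτ.2 _ hx _ (hS h1)
    rw [dist_mk, dist_not, if_neg hb] at h2
    omega

theorem S_card {j : ℕ} (hj : (univ.filter fun q => B q = true).card = j) :
    (S L B).card + 16 * j = 2 ^ (K + 5) := by
  have hinj : Function.Injective
      (fun t : Bool × (Fin K → Bool) × (Fin 7 → Bool) =>
        (mk t.1 t.2.1 t.2.2 (fun _ => false) : Fin (K + 1 + 7 + L) → Bool)) := by
    rintro ⟨b, q, z⟩ ⟨b', q', z'⟩ h
    have h1 : hammingDist (mk b q z (fun _ => false) : Fin (K + 1 + 7 + L) → Bool)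
        (mk b' q' z' (fun _ => false)) = 0 := hammingDist_eq_zero.2 h
    rw [dist_mk] at h1
    have h2 : hammingDist q q' = 0 := by omega
    have h3 : hammingDist z z' = 0 := by omega
    have h4 : b = b' := by
      by_contra hn
      rw [if_neg hn] at h1
      omega
    rw [hammingDist_eq_zero] at h2 h3
    rw [h2, h3, h4]
  rw [S, Finset.card_image_of_injective _ hinj, Finset.card_filter]
  rw [Fintype.sum_prod_type]
  have h1 : ∀ b : Bool, (∑ t : (Fin K → Bool) × (Fin 7 → Bool),
      if G (B (cls b t.1)) t.2 = true then 1 else 0) =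
      ∑ q : Fin K → Bool, if B q = true then 8 else 16 := by
    intro b
    rw [Fintype.sum_prod_type]
    have h2 : ∀ q : Fin K → Bool, (∑ z : Fin 7 → Bool,
        if G (B (cls b q)) z = true then 1 else 0) = if B (cls b q) = true then 8 else 16 := by
      intro q
      rw [← Finset.card_filter, G_card]
    simp only [h2]
    have hc : Function.Involutive (cls b : (Fin K → Bool) → (Fin K → Bool)) := by
      intro q
      funext i
      simp [cls]
    exact Equiv.sum_comp hc.toPerm (fun q => if B q = true then 8 else 16)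
  simp only [h1]
  rw [Finset.sum_const, Finset.card_univ, Fintype.card_bool, smul_eq_mul]
  rw [Finset.sum_ite, Finset.sum_const, Finset.sum_const, hj]
  have h3 : (univ.filter fun q : Fin K → Bool => ¬ B q = true).card = 2 ^ K - j := by
    have := Finset.card_filter_add_card_filter_not (s := (univ : Finset (Fin K → Bool)))
      (fun q => B q = true)
    rw [hj, Finset.card_univ, Fintype.card_fun, Fintype.card_bool, Fintype.card_fin] at this
    omega
  have h4 : j ≤ 2 ^ K := by
    rw [← hj]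
    refine (Finset.card_filter_le _ _).trans ?_
    rw [Finset.card_univ, Fintype.card_fun, Fintype.card_bool, Fintype.card_fin]
  rw [h3, smul_eq_mul, smul_eq_mul, pow_add]
  omega

theorem f_ge (K L : ℕ) : 2 ^ K + 1 ≤ f (K + 1 + 7 + L) (K + 5) := by
  set T := {k : ℕ | ∃ σ : Finset (Fin (K + 1 + 7 + L) → Bool),
    IsFacet (K + 5) σ ∧ IsRigid (K + 5) σ ∧ σ.card = k + 1} with hT
  have hfin : T.Finite := by
    refine Set.Finite.subset (Set.finite_range
      (fun σ : Finset (Fin (K + 1 + 7 + L) → Bool) => σ.card - 1)) ?_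
    rintro k ⟨σ, _, _, h⟩
    exact ⟨σ, by simp [h]⟩
  have hsub : (((Finset.range (2 ^ K + 1)).image fun j => 2 ^ (K + 5) - 16 * j - 1 :
      Finset ℕ) : Set ℕ) ⊆ T := by
    intro k hk
    rw [Finset.mem_coe, Finset.mem_image] at hk
    obtain ⟨j, hj, rfl⟩ := hk
    rw [Finset.mem_range] at hj
    obtain ⟨A, -, hA⟩ := Finset.exists_subset_card_eq
      (s := (univ : Finset (Fin K → Bool))) (n := j) (by
        rw [Finset.card_univ, Fintype.card_fun, Fintype.card_bool, Fintype.card_fin]
        omega)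
    have h1 := S_card (K := K) (L := L) (B := fun q => decide (q ∈ A)) (j := j) (by
      rw [← hA]
      congr 1
      ext q
      simp)
    refine ⟨S L (fun q => decide (q ∈ A)), S_facet, S_rigid, ?_⟩
    have h2 : 0 < 2 ^ K := Nat.two_pow_pos K
    rw [pow_add] at h1 ⊢
    omega
  have hcard : ((Finset.range (2 ^ K + 1)).image fun j => 2 ^ (K + 5) - 16 * j - 1).card =
      2 ^ K + 1 := by
    rw [Finset.card_image_of_injOn, Finset.card_range]
    intro a ha b hb hab
    rw [Finset.mem_coe, Finset.mem_range] at ha hb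
    simp only [pow_add] at hab
    omega
  have := Set.ncard_le_ncard hsub hfin
  rw [Set.ncard_coe_finset, hcard] at this
  exact this

/-- **Theorem.** For `r ≥ 5` and `n ≥ r + 3` the complex `VR(Q_n; r)` has rigid facets in at least
`2 ^ (r - 5) + 1` different dimensions. In particular `f(n; r)` is exponential in `r` for `n`
sufficiently large. -/
theorem result :
    (∀ r n : ℕ, 5 ≤ r → r + 3 ≤ n → 2 ^ (r - 5) + 1 ≤ f n r) ∧
    (∃ c : ℝ, 0 < c ∧ ∃ r₀ : ℕ, ∀ r : ℕ, r₀ ≤ r → ∃ n₀ : ℕ, ∀ n : ℕ, n₀ ≤ n →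
      Real.exp (c * r) ≤ f n r) := by
  have main : ∀ r n : ℕ, 5 ≤ r → r + 3 ≤ n → 2 ^ (r - 5) + 1 ≤ f n r := by
    intro r n hr hn
    obtain ⟨K, rfl⟩ := Nat.exists_eq_add_of_le hr
    obtain ⟨L, rfl⟩ := Nat.exists_eq_add_of_le hn
    have h := f_ge K L
    have e1 : 5 + K + 3 + L = K + 1 + 7 + L := by omega
    have e2 : 5 + K = K + 5 := by omega
    have e3 : 5 + K - 5 = K := by omega
    rw [e1, e3, e2]
    exact h
  refine ⟨main, Real.log 2 / 2, by positivity, 10, fun r hr => ⟨r + 3, fun n hn => ?_⟩⟩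
  have h1 := main r n (by omega) hn
  have h2 : Real.exp (Real.log 2 / 2 * r) ≤ ((2 ^ (r - 5) : ℕ) : ℝ) := by
    rw [Nat.cast_pow, Nat.cast_ofNat, ← Real.rpow_natCast, Real.rpow_def_of_pos (by norm_num)]
    apply Real.exp_le_exp.2
    have h3 : ((r - 5 : ℕ) : ℝ) = (r : ℝ) - 5 := by
      rw [Nat.cast_sub (by omega)]
      norm_num
    rw [h3]
    have h4 : (10 : ℝ) ≤ r := by exact_mod_cast hr
    have h5 : 0 < Real.log 2 := Real.log_pos (by norm_num)
    nlinarith
  refine h2.trans ?_
  exact_mod_cast (Nat.le_succ _).trans h1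

end Pool.Agent.Results.MP_dee721_co.ExponentiallyManyDims
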